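import Mathlib

/-!
# MP_f5f603_al : good involutions of connected noninvolutory quandles

The conjugacy class (24 elements) of a 4-cycle in the Weyl group of type `D_4` is a connected
noninvolutory quandle, on which `x ↦ x⁻¹` and `x ↦ z x⁻¹` (`z = -1` the central element) are two
distinct good involutions.
-/

namespace Pool.Agent.Results.MP_f5f603_al.TwoGoodInvolutions

/-- `op` is the operation of a quandle on `R`. -/
def IsQuandle {R : Type} (op : R → R → R) : Prop :=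
  (∀ x, op x x = x) ∧ (∀ y, Function.Bijective (fun x => op x y)) ∧
    ∀ x y z, op (op x y) z = op (op x z) (op y z)

/-- The group generated by the right translations `x ↦ op x y` acts transitively. -/
def Connected {R : Type} (op : R → R → R) : Prop :=
  ∀ x x' : R, ∃ g ∈ Subgroup.closure {s : Equiv.Perm R | ∃ y, ∀ a, s a = op a y}, g x = x'

/-- Every right translation is an involution. -/
def Involutory {R : Type} (op : R → R → R) : Prop :=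
  ∀ x y, op (op x y) y = x

/-- `ρ` is a good involution: `ρ ∘ ρ = id`, `ρ (x * y) = ρ x * y`, and the right translation by
`ρ y` is the inverse of the right translation by `y`. -/
def GoodInvolution {R : Type} (op : R → R → R) (ρ : R → R) : Prop :=
  (∀ x, ρ (ρ x) = x) ∧ (∀ x y, ρ (op x y) = op (ρ x) y) ∧
    ∀ x y, op (op x (ρ y)) y = x ∧ op (op x y) (ρ y) = x

/-- The multiplication table of a quandle with 24 elements. -/
def tab : List (List ℕ) :=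
  [[0, 5, 3, 1, 0, 2, 12, 11, 18, 18, 17, 6, 17, 6, 18, 18, 12, 11, 0, 5, 3, 1, 0, 2],
   [3, 1, 1, 4, 5, 0, 9, 14, 16, 7, 19, 19, 19, 19, 16, 7, 9, 14, 3, 1, 1, 4, 5, 0],
   [5, 2, 2, 0, 3, 4, 14, 9, 7, 16, 20, 20, 20, 20, 7, 16, 14, 9, 5, 2, 2, 0, 3, 4],
   [2, 0, 4, 3, 1, 3, 21, 21, 13, 10, 8, 15, 8, 15, 13, 10, 21, 21, 2, 0, 4, 3, 1, 3],
   [4, 3, 5, 2, 4, 1, 11, 12, 22, 22, 6, 17, 6, 17, 22, 22, 11, 12, 4, 3, 5, 2, 4, 1],
   [1, 4, 0, 5, 2, 5, 23, 23, 10, 13, 15, 8, 15, 8, 10, 13, 23, 23, 1, 4, 0, 5, 2, 5],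
   [11, 8, 15, 16, 12, 16, 6, 6, 20, 19, 0, 4, 0, 4, 20, 19, 6, 6, 11, 8, 15, 16, 12, 16],
   [10, 9, 14, 17, 13, 17, 7, 7, 1, 2, 22, 18, 22, 18, 1, 2, 7, 7, 10, 9, 14, 17, 13, 17],
   [14, 17, 6, 10, 14, 13, 19, 20, 8, 8, 5, 3, 5, 3, 8, 8, 19, 20, 14, 17, 6, 10, 14, 13],
   [15, 16, 7, 11, 15, 12, 2, 1, 9, 9, 21, 23, 21, 23, 9, 9, 2, 1, 15, 16, 7, 11, 15, 12],
   [16, 12, 12, 15, 7, 8, 22, 18, 3, 5, 10, 10, 10, 10, 3, 5, 22, 18, 16, 12, 12, 15, 7, 8],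
   [17, 13, 13, 14, 6, 9, 0, 4, 23, 21, 11, 11, 11, 11, 23, 21, 0, 4, 17, 13, 13, 14, 6, 9],
   [6, 10, 10, 9, 17, 14, 4, 0, 21, 23, 12, 12, 12, 12, 21, 23, 4, 0, 6, 10, 10, 9, 17, 14],
   [7, 11, 11, 8, 16, 15, 18, 22, 5, 3, 13, 13, 13, 13, 5, 3, 18, 22, 7, 11, 11, 8, 16, 15],
   [8, 7, 16, 12, 8, 11, 1, 2, 14, 14, 23, 21, 23, 21, 14, 14, 1, 2, 8, 7, 16, 12, 8, 11],
   [9, 6, 17, 13, 9, 10, 20, 19, 15, 15, 3, 5, 3, 5, 15, 15, 20, 19, 9, 6, 17, 13, 9, 10],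
   [13, 14, 9, 6, 10, 6, 16, 16, 2, 1, 18, 22, 18, 22, 2, 1, 16, 16, 13, 14, 9, 6, 10, 6],
   [12, 15, 8, 7, 11, 7, 17, 17, 19, 20, 4, 0, 4, 0, 19, 20, 17, 17, 12, 15, 8, 7, 11, 7],
   [18, 23, 21, 19, 18, 20, 10, 13, 0, 0, 7, 16, 7, 16, 0, 0, 10, 13, 18, 23, 21, 19, 18, 20],
   [21, 19, 19, 22, 23, 18, 15, 8, 6, 17, 1, 1, 1, 1, 6, 17, 15, 8, 21, 19, 19, 22, 23, 18],
   [23, 20, 20, 18, 21, 22, 8, 15, 17, 6, 2, 2, 2, 2, 17, 6, 8, 15, 23, 20, 20, 18, 21, 22],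
   [20, 18, 22, 21, 19, 21, 3, 3, 11, 12, 14, 9, 14, 9, 11, 12, 3, 3, 20, 18, 22, 21, 19, 21],
   [22, 21, 23, 20, 22, 19, 13, 10, 4, 4, 16, 7, 16, 7, 4, 4, 13, 10, 22, 21, 23, 20, 22, 19],
   [19, 22, 18, 23, 20, 23, 5, 5, 12, 11, 9, 14, 9, 14, 12, 11, 5, 5, 19, 22, 18, 23, 20, 23]]

/-- The first good involution. -/
def inv1 : List ℕ := [4, 2, 1, 5, 0, 3, 17, 16, 15, 14, 13, 12, 11, 10, 9, 8, 7, 6, 22, 20, 19,
    23, 18, 21]

/-- The second good involution. -/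
def inv2 : List ℕ := [22, 20, 19, 23, 18, 21, 7, 6, 9, 8, 11, 10, 13, 12, 15, 14, 17, 16, 4, 2,
    1, 5, 0, 3]

def w1 : List ℕ := [0, 0, 0, 0, 0, 0, 0, 0, 0, 0, 0, 0, 0, 0, 0, 0, 0, 0, 0, 0, 0, 0, 1, 0]

def w2 : List ℕ := [0, 0, 0, 0, 1, 0, 0, 3, 1, 3, 1, 0, 0, 1, 3, 1, 3, 0, 0, 3, 5, 2, 1, 1]

def w3 : List ℕ := [0, 3, 5, 2, 1, 1, 11, 9, 11, 6, 8, 7, 6, 9, 7, 10, 8, 10, 8, 10, 10, 6, 8,
    6]

/-- The operation of the table. -/
def opr (x y : Fin 24) : Fin 24 := Fin.ofNat 24 ((tab.getD x.val []).getD y.val 0)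

/-- The first good involution, as a map. -/
def r1 (x : Fin 24) : Fin 24 := Fin.ofNat 24 (inv1.getD x.val 0)

/-- The second good involution, as a map. -/
def r2 (x : Fin 24) : Fin 24 := Fin.ofNat 24 (inv2.getD x.val 0)

theorem idem : ∀ x, opr x x = x := by decide +kernel

theorem distrib : ∀ x y z, opr (opr x y) z = opr (opr x z) (opr y z) := by decide +kernel

theorem good1 : GoodInvolution opr r1 := by
  unfold GoodInvolution
  decide +kernel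

theorem good2 : GoodInvolution opr r2 := by
  unfold GoodInvolution
  decide +kernel

theorem reach : ∀ x : Fin 24, opr (opr (opr 0 (Fin.ofNat 24 (w1.getD x.val 0)))
    (Fin.ofNat 24 (w2.getD x.val 0))) (Fin.ofNat 24 (w3.getD x.val 0)) = x := by
  decide +kernel

/-- The right translation by `y` as a permutation. -/
def tr (y : Fin 24) : Equiv.Perm (Fin 24) where
  toFun x := opr x y
  invFun x := opr x (r1 y)
  left_inv x := (good1.2.2 x y).2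
  right_inv x := (good1.2.2 x y).1

theorem connected : Connected opr := by
  have key : ∀ x : Fin 24, ∃ g ∈ Subgroup.closure
      {s : Equiv.Perm (Fin 24) | ∃ y, ∀ a, s a = opr a y}, g 0 = x := by
    intro x
    refine ⟨tr (Fin.ofNat 24 (w3.getD x.val 0)) * (tr (Fin.ofNat 24 (w2.getD x.val 0)) *
      tr (Fin.ofNat 24 (w1.getD x.val 0))), ?_, reach x⟩
    refine Subgroup.mul_mem _ (Subgroup.subset_closure ⟨_, fun a => rfl⟩)
      (Subgroup.mul_mem _ (Subgroup.subset_closure ⟨_, fun a => rfl⟩)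
        (Subgroup.subset_closure ⟨_, fun a => rfl⟩))
  intro x x'
  obtain ⟨g, hg, hgx⟩ := key x
  obtain ⟨g', hg', hgx'⟩ := key x'
  refine ⟨g' * g⁻¹, Subgroup.mul_mem _ hg' (Subgroup.inv_mem _ hg), ?_⟩
  rw [Equiv.Perm.mul_apply, ← hgx, Equiv.Perm.inv_def, Equiv.symm_apply_apply, hgx']

/-- A connected noninvolutory quandle with two distinct good involutions. -/
theorem result : ∃ (R : Type) (_ : Nonempty R) (op : R → R → R), IsQuandle op ∧ Connected op ∧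
    ¬ Involutory op ∧ ∃ ρ₁ ρ₂ : R → R, ρ₁ ≠ ρ₂ ∧ GoodInvolution op ρ₁ ∧ GoodInvolution op ρ₂ := by
  refine ⟨Fin 24, ⟨0⟩, opr, ⟨idem, fun y => (tr y).bijective, distrib⟩, connected, ?_,
    r1, r2, ?_, good1, good2⟩
  · intro h
    have h1 := h 0 1
    revert h1
    decide +kernel
  · intro h
    have h1 := congrFun h 0
    revert h1
    decide +kernel

end Pool.Agent.Results.MP_f5f603_al.TwoGoodInvolutions
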